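import Mathlib
import Pool.Agent.Q281.MG.TutteEq

set_option autoImplicit false

/-!
# Equal U-polynomial, different strong U-polynomial (MP_062ce2_co)
-/

namespace Pool.Agent.Results.MP_062ce2_co.SmallPair

open Pool.Agent.Q281.MG

/-- The set of connected components of the spanning subgraph `(V, A)`. -/
abbrev Comp {V E : Type} (G : MGraph V E) (A : Finset E) : Type :=
  Quot (fun a b : V => ∃ e ∈ A, G.src e = a ∧ G.dst e = b)

/-- The number of vertices of a component. -/
noncomputable def size {V E : Type} (G : MGraph V E) (A : Finset E) (c : Comp G A) : ℕ :=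
  Nat.card {v : V // Quot.mk _ v = c}

/-- The number of edges (in `A`) of a component. -/
noncomputable def edges {V E : Type} (G : MGraph V E) (A : Finset E) (c : Comp G A) : ℕ :=
  Nat.card {e : E // e ∈ A ∧ Quot.mk _ (G.src e) = c}

/-- The U-polynomial in `ℤ[y][x_1, x_2, ...]`. -/
noncomputable def uPoly {V E : Type} [Fintype E] (G : MGraph V E) :
    MvPolynomial ℕ (Polynomial ℤ) :=
  ∑ A : Finset E, (∏ᶠ c : Comp G A, MvPolynomial.X (size G A c)) *
    MvPolynomial.C ((Polynomial.X - 1) ^ (A.card - G.rank A))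

/-- The strong U-polynomial in `ℤ[z_{i,j}]`. -/
noncomputable def strongU {V E : Type} [Fintype E] (G : MGraph V E) :
    MvPolynomial (ℕ × ℕ) ℤ :=
  ∑ A : Finset E, ∏ᶠ c : Comp G A,
    MvPolynomial.X (size G A c, edges G A c + 1 - size G A c)

/-- Isomorphism of multigraphs. -/
def Iso {V E V' E' : Type} (G : MGraph V E) (H : MGraph V' E') : Prop :=
  ∃ (σ : V ≃ V') (τ : E ≃ E'), ∀ e, s(σ (G.src e), σ (G.dst e)) = s(H.src (τ e), H.dst (τ e))

/-- No edge joins a vertex to itself. -/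
def Loopless {V E : Type} (G : MGraph V E) : Prop := ∀ e, G.src e ≠ G.dst e

/-- The first graph. -/
def GG : MGraph (Fin 6) (Fin 9) where
  src := ![0, 1, 1, 2, 2, 2, 3, 3, 4]
  dst := ![5, 3, 4, 4, 5, 5, 4, 5, 5]

/-- The second graph. -/
def HH : MGraph (Fin 6) (Fin 9) where
  src := ![0, 1, 1, 2, 2, 2, 3, 3, 4]
  dst := ![4, 4, 5, 3, 5, 5, 4, 5, 5]

theorem listG : (List.finRange 9).map (pr GG) =
    [(0,5),(1,3),(1,4),(2,4),(2,5),(2,5),(3,4),(3,5),(4,5)] := by
  decide +kernel

theorem listH : (List.finRange 9).map (pr HH) =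
    [(0,4),(1,4),(1,5),(2,3),(2,5),(2,5),(3,4),(3,5),(4,5)] := by
  decide +kernel

theorem range6 : List.range 6 = [0, 1, 2, 3, 4, 5] := by decide +kernel

/-! ### products over components -/

theorem finprod_comp {n : ℕ} {R : Type} [CommMonoid R] {r : Fin n → Fin n → Prop} {ℓ : List ℕ}
    (hℓ : Faithful r ℓ) (F : Quot r → R) (h : ℕ → R)
    (hF : ∀ v : Fin n, F (Quot.mk r v) = h (ℓ.getD v 0)) :
    ∏ᶠ c, F c = (ℓ.dedup.map h).prod := by
  classical
  have hmem : ∀ v : Fin n, ℓ.getD v 0 ∈ ℓ.toFinset := by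
    intro v
    have hv : (v : ℕ) < ℓ.length := by rw [hℓ.len]; exact v.2
    rw [List.getD_eq_getElem _ _ hv, List.mem_toFinset]
    exact List.getElem_mem _
  let e : Quot r ≃ {x // x ∈ ℓ.toFinset} := Equiv.ofBijective
    (Quot.lift (fun v => ⟨ℓ.getD v 0, hmem v⟩) (fun a b hab =>
      Subtype.ext ((hℓ.iff a b).2 (Relation.EqvGen.rel _ _ hab)))) (by
      constructor
      · rintro ⟨a⟩ ⟨b⟩ hab
        exact Quot.eqvGen_sound ((hℓ.iff a b).1 (congrArg Subtype.val hab))
      · rintro ⟨x, hx⟩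
        rw [List.mem_toFinset, List.mem_iff_getElem] at hx
        obtain ⟨i, hi, rfl⟩ := hx
        refine ⟨Quot.mk _ ⟨i, by rw [← hℓ.len]; exact hi⟩, Subtype.ext ?_⟩
        simp only
        rw [List.getD_eq_getElem _ _ hi])
  have h1 : ∏ᶠ c, F c = ∏ᶠ x : {x // x ∈ ℓ.toFinset}, h x.1 := by
    refine finprod_eq_of_bijective e e.bijective ?_
    rintro ⟨v⟩
    exact hF v
  rw [h1, finprod_eq_prod_of_fintype, Finset.prod_coe_sort ℓ.toFinset h]
  rw [List.toFinset, Finset.prod_mk]
  simp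

theorem size_mk {n m : ℕ} (G : MGraph (Fin n) (Fin m)) (A : Finset (Fin m)) {ℓ : List ℕ}
    (hℓ : Faithful (fun a b => ∃ e ∈ A, G.src e = a ∧ G.dst e = b) ℓ) (v : Fin n) :
    size G A (Quot.mk _ v) = ℓ.count (ℓ.getD v 0) := by
  classical
  have h1 : size G A (Quot.mk _ v) =
      (Finset.univ.filter (fun w : Fin n => ℓ.getD w 0 = ℓ.getD v 0)).card := by
    rw [size, ← Fintype.card_subtype, ← Nat.card_eq_fintype_card]
    refine Nat.card_congr (Equiv.subtypeEquivRight fun w => ?_)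
    rw [hℓ.iff]
    exact ⟨fun h => Quot.eqvGen_exact h, fun h => Quot.eqvGen_sound h⟩
  rw [h1]
  generalize ℓ.getD v 0 = x
  -- count as a number of indices
  have hlen := hℓ.len
  subst hlen
  have h2 := Fin.card_filter_univ_eq_vector_get_eq_count x (⟨ℓ, rfl⟩ : List.Vector ℕ ℓ.length)
  refine Eq.trans ?_ h2
  congr 1
  ext w
  simp only [Finset.mem_filter, Finset.mem_univ, true_and]
  rw [List.getD_eq_getElem _ _ w.2]
  rfl


theorem edges_mk {n m : ℕ} (G : MGraph (Fin n) (Fin m)) (A : Finset (Fin m))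
    (acc : List (Fin m)) {ℓ : List ℕ}
    (hℓ : Faithful (fun a b => ∃ e ∈ A, G.src e = a ∧ G.dst e = b) ℓ) (hacc : acc.Nodup) (hA : acc.toFinset = A) (v : Fin n) :
    edges G A (Quot.mk _ v) =
      ((acc.map (pr G)).filter (fun p => ℓ.getD p.1 0 = ℓ.getD v 0)).length := by
  classical
  have h1 : edges G A (Quot.mk _ v) =
      (A.filter (fun e => ℓ.getD (G.src e) 0 = ℓ.getD v 0)).card := by
    rw [edges, ← Fintype.card_coe, ← Nat.card_eq_fintype_card]
    refine Nat.card_congr (Equiv.subtypeEquivRight fun e => ?_)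
    rw [Finset.mem_filter, hℓ.iff]
    exact and_congr_right fun _ => ⟨fun h => Quot.eqvGen_exact h, fun h => Quot.eqvGen_sound h⟩
  have h2 : A.filter (fun e => ℓ.getD (G.src e) 0 = ℓ.getD v 0) =
      (acc.filter (fun e => decide (ℓ.getD (G.src e) 0 = ℓ.getD v 0))).toFinset := by
    ext e
    simp [← hA]
  rw [h1, h2, List.toFinset_card_of_nodup (hacc.filter _), List.filter_map, List.length_map]
  congr 1

/-- leaf for the U-polynomial: nullity, then the sorted sizes -/
def leafU (ℓ : List ℕ) (acc : List (ℕ × ℕ)) : List ℕ :=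
  (acc.length - (ℓ.length - ℓ.dedup.length)) ::
    (ℓ.dedup.map (fun x => ℓ.count x)).insertionSort (· ≤ ·)

theorem uPoly_eq {m : ℕ} (G : MGraph (Fin 6) (Fin m)) : uPoly G =
    evf (fun d : List ℕ => (d.tail.map (fun i => (MvPolynomial.X i : MvPolynomial ℕ
      (Polynomial ℤ)))).prod * MvPolynomial.C ((Polynomial.X - 1) ^ d.headD 0))
      (go leafU ((List.finRange m).map (pr G)) (List.range 6) []) := by
  rw [uPoly]
  apply enum
  intro A acc ℓ hℓ hacc hA
  have h1 : G.comps A = ℓ.dedup.length := hℓ.comps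
  have h2 : A.card = acc.length := by
    rw [← hA, List.toFinset_card_of_nodup hacc]
  have hℓ' : Faithful (fun a b => ∃ e ∈ A, G.src e = a ∧ G.dst e = b) ℓ := hℓ
  have h3 := finprod_comp hℓ' (fun c : Comp G A => (MvPolynomial.X (size G A c) :
    MvPolynomial ℕ (Polynomial ℤ))) (fun x => MvPolynomial.X (ℓ.count x))
    (fun v => by rw [size_mk G A hℓ'])
  rw [h3]
  simp only [leafU, List.tail_cons, List.headD_cons, MGraph.rank, h1, h2,
    Nat.card_eq_fintype_card, Fintype.card_fin, List.length_map, hℓ.len]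
  congr 1
  have h4 := (List.perm_insertionSort (· ≤ ·) (ℓ.dedup.map (fun x => ℓ.count x))).map
    (fun i => (MvPolynomial.X i : MvPolynomial ℕ (Polynomial ℤ)))
  rw [h4.prod_eq, List.map_map]
  rfl

theorem keyU : go leafU [(0,5),(1,3),(1,4),(2,4),(2,5),(2,5),(3,4),(3,5),(4,5)]
      [0, 1, 2, 3, 4, 5] [] =
    go leafU [(0,4),(1,4),(1,5),(2,3),(2,5),(2,5),(3,4),(3,5),(4,5)]
      [0, 1, 2, 3, 4, 5] [] := by
  decide +kernel

theorem u_eq : uPoly GG = uPoly HH := by
  rw [uPoly_eq, uPoly_eq, listG, listH, range6, keyU]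

/-- leaf for the evaluation of the strong U-polynomial at `z_{i,j} = i + j` -/
def leafS (ℓ : List ℕ) (acc : List (ℕ × ℕ)) : List ℕ :=
  [(ℓ.dedup.map (fun x => ℓ.count x +
    ((acc.filter (fun p => ℓ.getD p.1 0 = x)).length + 1 - ℓ.count x))).prod]

theorem strong_eval {m : ℕ} (G : MGraph (Fin 6) (Fin m)) :
    MvPolynomial.eval (fun p : ℕ × ℕ => ((p.1 + p.2 : ℕ) : ℤ)) (strongU G) =
    evf (fun d : List ℕ => ((d.headD 0 : ℕ) : ℤ))
      (go leafS ((List.finRange m).map (pr G)) (List.range 6) []) := by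
  rw [strongU, map_sum]
  apply enum
  intro A acc ℓ hℓ hacc hA
  have hℓ' : Faithful (fun a b => ∃ e ∈ A, G.src e = a ∧ G.dst e = b) ℓ := hℓ
  have h3 := finprod_comp hℓ' (fun c : Comp G A =>
    (MvPolynomial.X (size G A c, edges G A c + 1 - size G A c) : MvPolynomial (ℕ × ℕ) ℤ))
    (fun x => MvPolynomial.X (ℓ.count x,
      ((acc.map (pr G)).filter (fun p => ℓ.getD p.1 0 = x)).length + 1 - ℓ.count x))
    (fun v => by rw [size_mk G A hℓ', edges_mk G A acc hℓ' hacc hA])
  rw [h3, map_list_prod, List.map_map, leafS, List.headD_cons]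
  push_cast
  rw [List.map_map]
  congr 1
  refine List.map_congr_left fun x _ => ?_
  simp only [Function.comp, MvPolynomial.eval_X]
  push_cast
  rfl

theorem keyS : evf (fun d : List ℕ => ((d.headD 0 : ℕ) : ℤ))
      (go leafS [(0,5),(1,3),(1,4),(2,4),(2,5),(2,5),(3,4),(3,5),(4,5)]
      [0, 1, 2, 3, 4, 5] []) ≠
    evf (fun d : List ℕ => ((d.headD 0 : ℕ) : ℤ))
      (go leafS [(0,4),(1,4),(1,5),(2,3),(2,5),(2,5),(3,4),(3,5),(4,5)]
      [0, 1, 2, 3, 4, 5] []) := by
  decide +kernel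

theorem strong_ne : strongU GG ≠ strongU HH := by
  intro h
  have h1 := congrArg (MvPolynomial.eval (fun p : ℕ × ℕ => ((p.1 + p.2 : ℕ) : ℤ))) h
  rw [strong_eval, strong_eval, listG, listH, range6] at h1
  exact keyS h1

/-- multiplicity of a pair -/
def mult (G : MGraph (Fin 6) (Fin 9)) (a b : Fin 6) : ℕ :=
  (Finset.univ.filter (fun e => s(G.src e, G.dst e) = s(a, b))).card

theorem not_iso : ¬ Iso GG HH := by
  rintro ⟨σ, τ, h⟩
  have h1 : ∀ a b, mult GG a b = mult HH (σ a) (σ b) := by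
    intro a b
    unfold mult
    refine Finset.card_bij (fun e _ => τ e) ?_ (fun e _ f _ hef => τ.injective hef) ?_
    · intro e he
      simp only [Finset.mem_filter, Finset.mem_univ, true_and] at he ⊢
      rw [← h e]
      have := congrArg (Sym2.map σ) he
      simpa using this
    · intro f hf
      simp only [Finset.mem_filter, Finset.mem_univ, true_and] at hf
      refine ⟨τ.symm f, ?_, by simp⟩
      simp only [Finset.mem_filter, Finset.mem_univ, true_and]
      have h2 := h (τ.symm f)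
      rw [Equiv.apply_symm_apply, hf] at h2
      have h3 := congrArg (Sym2.map σ.symm) h2
      simpa using h3
  have h2 : ∀ σ : Equiv.Perm (Fin 6), ∃ a b, mult GG a b ≠ mult HH (σ a) (σ b) := by
    decide +kernel
  obtain ⟨a, b, hab⟩ := h2 σ
  exact hab (h1 a b)

/-- There are two non-isomorphic loopless multigraphs with equal U-polynomials and different
strong U-polynomials. -/
theorem result : ∃ (n m : ℕ) (G H : MGraph (Fin n) (Fin m)), Loopless G ∧ Loopless H ∧
    ¬ Iso G H ∧ uPoly G = uPoly H ∧ strongU G ≠ strongU H :=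
  ⟨6, 9, GG, HH, by unfold Loopless; decide +kernel, by unfold Loopless; decide +kernel,
    not_iso, u_eq, strong_ne⟩

end Pool.Agent.Results.MP_062ce2_co.SmallPair
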